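import Pool.Agent.Helper29.OT.St
import Pool.Agent.Helper29.TK.M_BA
import Pool.Agent.Helper84.FEI.Tup

/-!
# Project OT: module PC (sets and tuples, descending factorials)
-/

set_option autoImplicit false

namespace Pool.Agent.Helper80.OT

open Finset Pool.Agent.Helper14.FEM Pool.Agent.Helper3.EMK Pool.Agent.Helper29.TK
  Pool.Agent.Helper29.OT

theorem PC_one (n k : ℕ) (x : Fin n → ℝ) (hn : 1 ≤ n) :
    (k.factorial : ℝ) * cnt univ x k 1 ≤ n ^ k * Pr (un n) x k 1 := by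
  have hn0 : (0 : ℝ) < n := by exact_mod_cast hn
  have h1 := cnt_le_T (univ : Finset (Fin n)) x k 1
  rw [Pool.Agent.Helper84.FEI.T_univ, Pool.Agent.Helper84.FEI.T_eq] at h1
  refine h1.trans (le_of_eq ?_)
  rw [Pr, ← hLK (Fin n) (un n) x k (fun s => if 1 ≤ s then 1 else 0), Finset.mul_sum]
  refine Finset.sum_congr rfl fun ω _ => ?_
  split_ifs
  · simp only [un, Finset.prod_const_one, Finset.prod_const, Finset.card_univ, Fintype.card_fin,
      mul_one]
    rw [← mul_pow, mul_one_div_cancel hn0.ne', one_pow]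
  · simp

theorem PC_two (k s : ℕ) (hk : 1 ≤ k) (hs : 1 ≤ s) :
    ((k : ℝ) * (s - 1)) ^ k ≤ k.factorial * ((k * s - 1).choose k) := by
  have h1 := Nat.pow_sub_le_descFactorial (k * s - 1) k
  rw [Nat.descFactorial_eq_factorial_mul_choose] at h1
  obtain ⟨t, rfl⟩ := Nat.exists_eq_add_of_le hs
  have h2 : k * (1 + t) - 1 + 1 - k = k * t := by
    have e : k * (1 + t) = k + k * t := by ring
    have : 1 ≤ k * (1 + t) := by nlinarith
    omega
  rw [h2] at h1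
  have h3 : ((k : ℝ) * (((1 + t : ℕ) : ℝ) - 1)) ^ k = (((k * t) ^ k : ℕ) : ℝ) := by
    push_cast
    congr 1
    ring
  rw [h3]
  exact_mod_cast h1

theorem PC_desc (n : ℕ) : ∀ k : ℕ, (n : ℝ) ^ k ≤
    (n.descFactorial k : ℝ) + (k : ℝ) * (k - 1) / 2 * n ^ (k - 1) := by
  intro k
  induction k with
  | zero => simp
  | succ k ih =>
    rw [Nat.descFactorial_succ]
    have hn0 : (0 : ℝ) ≤ n := Nat.cast_nonneg n
    have hk0 : (0 : ℝ) ≤ k := Nat.cast_nonneg k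
    rw [Nat.add_sub_cancel]
    rcases le_or_gt k n with h | h
    · have h1 : (((n - k) * n.descFactorial k : ℕ) : ℝ) = ((n : ℝ) - k) * (n.descFactorial k : ℝ) := by
        rw [Nat.cast_mul, Nat.cast_sub h]
      rw [h1]
      have h2 : (n.descFactorial k : ℝ) ≤ (n : ℝ) ^ k := by
        exact_mod_cast Nat.descFactorial_le_pow n k
      have h3 : (n : ℝ) * ((k : ℝ) * (k - 1) / 2 * n ^ (k - 1)) = (k : ℝ) * (k - 1) / 2 * n ^ k := by
        rcases Nat.eq_zero_or_pos k with h4 | h4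
        · subst h4; simp
        · obtain ⟨j, rfl⟩ : ∃ j, k = j + 1 := ⟨k - 1, by omega⟩
          rw [Nat.add_sub_cancel, pow_succ]
          ring
      have h5 : (n : ℝ) ^ (k + 1) ≤
          n * ((n.descFactorial k : ℝ) + (k : ℝ) * (k - 1) / 2 * n ^ (k - 1)) := by
        rw [pow_succ, mul_comm]
        exact mul_le_mul_of_nonneg_left ih hn0
      have h6 : (k : ℝ) * (n.descFactorial k : ℝ) ≤ k * (n : ℝ) ^ k :=
        mul_le_mul_of_nonneg_left h2 hk0
      have h7 : n * ((n.descFactorial k : ℝ) + (k : ℝ) * (k - 1) / 2 * n ^ (k - 1)) =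
          ((n : ℝ) - k) * (n.descFactorial k : ℝ) + k * (n.descFactorial k : ℝ) +
            (k : ℝ) * (k - 1) / 2 * n ^ k := by
        rw [mul_add, h3]; ring
      have h8 : ((k + 1 : ℕ) : ℝ) * (((k + 1 : ℕ) : ℝ) - 1) / 2 * (n : ℝ) ^ k =
          k * (n : ℝ) ^ k + (k : ℝ) * (k - 1) / 2 * n ^ k := by
        push_cast; ring
      rw [h8]
      linarith
    · have h1 : n - k = 0 := by omega
      rw [h1, Nat.zero_mul, Nat.cast_zero, zero_add, pow_succ, mul_comm]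
      have h2 : (n : ℝ) + 1 ≤ k := by exact_mod_cast h
      have h3 : (n : ℝ) ≤ ((k + 1 : ℕ) : ℝ) * (((k + 1 : ℕ) : ℝ) - 1) / 2 := by
        push_cast
        nlinarith
      exact mul_le_mul_of_nonneg_right h3 (by positivity)

theorem PC_up (m k : ℕ) : ((m + 1).descFactorial (k + 1) : ℝ) ≤ (m : ℝ) ^ (k + 1) + m ^ k := by
  rw [Nat.succ_descFactorial_succ]
  have h2 : (m.descFactorial k : ℝ) ≤ (m : ℝ) ^ k := by
    exact_mod_cast Nat.descFactorial_le_pow m k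
  push_cast
  have h0 : (0 : ℝ) ≤ (m : ℝ) + 1 := by positivity
  calc ((m : ℝ) + 1) * (m.descFactorial k : ℝ) ≤ ((m : ℝ) + 1) * (m : ℝ) ^ k :=
        mul_le_mul_of_nonneg_left h2 h0
    _ = (m : ℝ) ^ (k + 1) + m ^ k := by ring

theorem PC_three (k n s : ℕ) (hk : 2 ≤ k) (_hs : 1 ≤ s) (hsn : s ≤ n) :
    (n : ℝ) ^ k - ((n : ℝ) - s) ^ k ≤
      k.factorial * ((n.choose k : ℝ) - (n - s + 1).choose k) + (k : ℝ) ^ 2 / 2 * n ^ (k - 1) := by
  have h1 := PC_desc n k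
  obtain ⟨m, hm⟩ : ∃ m, m = n - s := ⟨_, rfl⟩
  have hmr : (n : ℝ) - s = m := by
    rw [hm, Nat.cast_sub hsn]
  have hmn : (m : ℝ) ≤ n := by
    rw [← hmr]
    have : (0 : ℝ) ≤ s := Nat.cast_nonneg s
    linarith
  obtain ⟨j, rfl⟩ : ∃ j, k = j + 1 := ⟨k - 1, by omega⟩
  have h2 := PC_up m j
  rw [Nat.add_sub_cancel] at h1 ⊢
  rw [Nat.descFactorial_eq_factorial_mul_choose] at h1 h2
  push_cast at h1 h2
  rw [← hm, hmr]
  have h3 : (m : ℝ) ^ j ≤ (n : ℝ) ^ j := pow_le_pow_left₀ (Nat.cast_nonneg m) hmn j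
  have hj : (1 : ℝ) ≤ j := by exact_mod_cast (by omega : 1 ≤ j)
  have h4 : (((j : ℝ) + 1) * ((j : ℝ) + 1 - 1) / 2 + 1) * (n : ℝ) ^ j ≤
      ((j : ℝ) + 1) ^ 2 / 2 * n ^ j := by
    apply mul_le_mul_of_nonneg_right _ (by positivity)
    nlinarith
  push_cast
  linarith

theorem hPC : StPC :=
  ⟨fun n k x hn _ => PC_one n k x hn, fun k s hk hs => PC_two k s hk hs,
    fun k n s hk hs hsn => PC_three k n s hk hs hsn⟩

end Pool.Agent.Helper80.OT
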